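import Mathlib
import Pool.Agent.H186R3.MinkDens
import Pool.Agent.H186R3.MinkHex

set_option autoImplicit false

namespace Pool.Agent.Results.MP_40d282_co.HexNotOptimal

open MeasureTheory Metric Filter Topology
open scoped ENNReal

/-- The family of open disks `ball (x i) (ρ i)` in the Euclidean plane `ℂ` is a `μ`-arrangement:
`|x i - x j| ≥ max (ρ i + μ ρ j) (ρ j + μ ρ i)` for all `i ≠ j`. -/
def IsMuArrangement (μ : ℝ) {ι : Type} (x : ι → ℂ) (ρ : ι → ℝ) : Prop :=
  (∀ i, 0 < ρ i) ∧
    ∀ i j, i ≠ j → max (ρ i + μ * ρ j) (ρ j + μ * ρ i) ≤ dist (x i) (x j)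

/-- Positive homogeneity: the radii are bounded away from `0` and from `∞`. -/
def PositiveHomogeneity {ι : Type} (ρ : ι → ℝ) : Prop :=
  (∃ a : ℝ, 0 < a ∧ ∀ i, a ≤ ρ i) ∧ ∃ b : ℝ, ∀ i, ρ i ≤ b

/-- The upper density `δ(F)`: the limsup, as `R → ∞`, of the total area of the members whose
centres lie in the disk of radius `R` about the origin, divided by the area of that disk. -/
noncomputable def density {ι : Type} (x : ι → ℂ) (ρ : ι → ℝ) : ℝ≥0∞ :=
  limsup (fun R : ℝ =>
    (∑' i : {i // x i ∈ closedBall (0 : ℂ) R}, volume (ball (x i) (ρ i))) /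
      volume (closedBall (0 : ℂ) R)) atTop

/-- The density relative to the union, `δ_U(F)`: the limsup, as `R → ∞`, of the sum of the areas
of the members contained in the disk of radius `R` about the origin, divided by the area of the
union of those members. -/
noncomputable def densityU {ι : Type} (x : ι → ℂ) (ρ : ι → ℝ) : ℝ≥0∞ :=
  limsup (fun R : ℝ =>
    (∑' i : {i // ball (x i) (ρ i) ⊆ closedBall (0 : ℂ) R}, volume (ball (x i) (ρ i))) /
      volume (⋃ i : {i // ball (x i) (ρ i) ⊆ closedBall (0 : ℂ) R}, ball (x i) (ρ i))) atTop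

/-- Centres of the hexagonal arrangement: the points `m u + n v` with `m, n` integers. -/
def hexCentre (u v : ℂ) (p : ℤ × ℤ) : ℂ := p.1 • u + p.2 • v

/-- The density of the hexagonal arrangement relative to its union, `δ_U(F_hex(μ))`, for the
hexagonal lattice spanned by the unit vectors `u`, `v`: all radii equal `1 / (1 + μ)`. -/
noncomputable def hexDensityU (μ : ℝ) (u v : ℂ) : ℝ≥0∞ :=
  densityU (hexCentre u v) (fun _ => 1 / (1 + μ))

/-- Lower bound for the density of the explicit arrangement (up to a factor `1 - 10⁻⁷`). -/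
noncomputable def kap' : ℝ := Real.pi * (551150744 / 41400 ^ 2) / (√3 / 2)

/-- The numerical inequality behind the counterexample. -/
theorem numeric : Pool.Agent.H186R3.MinkHex.kap < kap' * (1 - 1 / 10 ^ 7) := by
  have hpi : (3.14159 : ℝ) < Real.pi := by
    have := Real.pi_gt_d6; linarith
  have h3 : √3 < 1.7320509 := by
    rw [Real.sqrt_lt' (by norm_num)]; norm_num
  have h3' : 0 < √3 := Real.sqrt_pos.mpr (by norm_num)
  have hden := Pool.Agent.H186R3.MinkHex.denom_pos
  unfold Pool.Agent.H186R3.MinkHex.kap kap'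
  rw [div_lt_iff₀ hden]
  have key : √3 * (17 / 30) ^ 2 <
      2 * (551150744 / 41400 ^ 2) * (1 - 1 / 10 ^ 7) * (Real.pi * (17 / 30) ^ 2 - 143988 / 1000000) := by
    nlinarith
  have h5 : Real.pi * (551150744 / 41400 ^ 2) / (√3 / 2) * (1 - 1 / 10 ^ 7) *
      (Real.pi * (17 / 30) ^ 2 - 143988 / 1000000) =
      Real.pi * (2 * (551150744 / 41400 ^ 2) * (1 - 1 / 10 ^ 7) *
        (Real.pi * (17 / 30) ^ 2 - 143988 / 1000000)) / √3 := by
    field_simp
  rw [h5, lt_div_iff₀ h3']
  have hpi0 := Real.pi_pos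
  nlinarith

theorem hex_upper (u v : ℂ) (hu : ‖u‖ = 1) (hv : ‖v‖ = 1)
    (huv : InnerProductGeometry.angle u v = Real.pi / 3) :
    hexDensityU (13 / 17) u v ≤ ENNReal.ofReal Pool.Agent.H186R3.MinkHex.kap := by
  have hin : inner ℝ u v = (1 / 2 : ℝ) := by
    have := InnerProductGeometry.cos_angle u v
    rw [huv, hu, hv, Real.cos_pi_div_three] at this
    linarith
  unfold hexDensityU densityU
  have : (1 : ℝ) / (1 + 13 / 17) = 17 / 30 := by norm_num
  rw [this]
  refine Filter.limsup_le_of_le (h := ?_)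
  filter_upwards with R
  exact Pool.Agent.H186R3.MinkHex.ratio_le u v hu hv hin
    {i | ball (hexCentre u v i) (17 / 30) ⊆ closedBall (0 : ℂ) R}

open Pool.Agent.H186R3.MinkArr Pool.Agent.H186R3.MinkDens in
theorem lower : ENNReal.ofReal (kap' * (1 - 1 / 10 ^ 7)) ≤ density ctr rd := by
  have h3' : 0 < √3 := Real.sqrt_pos.mpr (by norm_num)
  have hpi0 := Real.pi_pos
  have hkap : 0 < kap' := by unfold kap'; positivity
  have hS : (∑ k : Fin 9, ENNReal.ofReal (Real.pi * ((rad k : ℝ) / 41400) ^ 2 / (√3 / 2))) =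
      ENNReal.ofReal kap' := by
    rw [← ENNReal.ofReal_sum_of_nonneg (fun k _ => by positivity)]
    congr 1
    rw [← Finset.sum_div, ← Finset.mul_sum]
    unfold kap'
    congr 2
    simp [Fin.sum_univ_succ, rad]
    norm_num
  unfold density
  calc ENNReal.ofReal (kap' * (1 - 1 / 10 ^ 7))
      = limsup (fun _ : ℝ => ENNReal.ofReal (kap' * (1 - 1 / 10 ^ 7))) atTop :=
        (limsup_const _).symm
    _ ≤ _ := by
      refine limsup_le_limsup ?_
      filter_upwards [eventually_ge_atTop (4 * 10 ^ 7 : ℝ)] with R hR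
      have hR2 : (0 : ℝ) ≤ R - 2 := by linarith
      have hR0 : (0 : ℝ) < R := by linarith
      have hvol : ∀ r : ℝ, 0 ≤ r →
          volume (closedBall (0 : ℂ) r) = ENNReal.ofReal (Real.pi * r ^ 2) := by
        intro r hr
        rw [Complex.volume_closedBall]
        have h1 : ((NNReal.pi : NNReal) : ℝ≥0∞) = ENNReal.ofReal Real.pi := by
          rw [ENNReal.ofReal, ← NNReal.coe_real_pi, Real.toNNReal_coe]
        rw [h1, ← ENNReal.ofReal_pow hr, ← ENNReal.ofReal_mul (by positivity)]
        congr 1; ring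
      have harea := area_ge R
      rw [hS, hvol _ hR2, ← ENNReal.ofReal_mul hkap.le] at harea
      rw [hvol _ hR0.le]
      have hpos : 0 < Real.pi * R ^ 2 := by positivity
      rw [ENNReal.le_div_iff_mul_le
        (Or.inl (by rw [ne_eq, ENNReal.ofReal_eq_zero, not_le]; exact hpos))
        (Or.inl ENNReal.ofReal_ne_top)]
      refine le_trans ?_ harea
      rw [← ENNReal.ofReal_mul (by positivity)]
      apply ENNReal.ofReal_le_ofReal
      have h6 : (1 - 1 / 10 ^ 7) * R ^ 2 ≤ (R - 2) ^ 2 := by nlinarith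
      have h7 : 0 < kap' * Real.pi := by positivity
      nlinarith

theorem arrangement : IsMuArrangement (13 / 17) Pool.Agent.H186R3.MinkDens.ctr
    Pool.Agent.H186R3.MinkDens.rd := by
  refine ⟨Pool.Agent.H186R3.MinkDens.rd_pos, fun i j hij => ?_⟩
  apply max_le
  · exact Pool.Agent.H186R3.MinkDens.sep i j hij
  · rw [dist_comm]
    exact Pool.Agent.H186R3.MinkDens.sep j i hij.symm

theorem homogeneous : PositiveHomogeneity Pool.Agent.H186R3.MinkDens.rd := by
  refine ⟨⟨136 / 41400, by norm_num, fun i => ?_⟩, 1, fun i => ?_⟩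
  · have := (Pool.Agent.H186R3.MinkArr.bounds i.2.2 i.2.2).2.2.2.2.2.1
    have h : (136 : ℝ) ≤ Pool.Agent.H186R3.MinkArr.rad i.2.2 := by exact_mod_cast this
    unfold Pool.Agent.H186R3.MinkDens.rd
    gcongr
  · have := (Pool.Agent.H186R3.MinkArr.bounds i.2.2 i.2.2).2.2.2.2.2.2
    have h : (Pool.Agent.H186R3.MinkArr.rad i.2.2 : ℝ) ≤ 41400 := by exact_mod_cast this
    unfold Pool.Agent.H186R3.MinkDens.rd
    rw [div_le_one (by norm_num)]
    exact h

/-- Disproof of the conjecture: for `μ = 13/17`, which lies in `(√3 - 1, 1)`, there is a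
`μ`-arrangement of positive homogeneity in the plane whose density exceeds the density of the
hexagonal arrangement `F_hex(μ)` relative to its union. -/
theorem result :
    ∃ μ : ℝ, √3 - 1 < μ ∧ μ < 1 ∧
      ∃ (ι : Type) (_ : Countable ι) (x : ι → ℂ) (ρ : ι → ℝ),
        IsMuArrangement μ x ρ ∧ PositiveHomogeneity ρ ∧
        ∀ u v : ℂ, ‖u‖ = 1 → ‖v‖ = 1 → InnerProductGeometry.angle u v = Real.pi / 3 →
          hexDensityU μ u v < density x ρ := by
  refine ⟨13 / 17, ?_, by norm_num, ℤ × ℤ × Fin 9, inferInstance,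
    Pool.Agent.H186R3.MinkDens.ctr, Pool.Agent.H186R3.MinkDens.rd, arrangement, homogeneous, ?_⟩
  · have h3 : √3 < 1.7320509 := by
      rw [Real.sqrt_lt' (by norm_num)]; norm_num
    linarith
  · intro u v hu hv huv
    refine lt_of_le_of_lt (hex_upper u v hu hv huv) (lt_of_lt_of_le ?_ lower)
    have h1 : 0 < Pool.Agent.H186R3.MinkHex.kap := by
      have := Pool.Agent.H186R3.MinkHex.denom_pos
      unfold Pool.Agent.H186R3.MinkHex.kap
      positivity
    rw [ENNReal.ofReal_lt_ofReal_iff (h1.trans numeric)]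
    exact numeric

end Pool.Agent.Results.MP_40d282_co.HexNotOptimal
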